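import Pool.Agent.Q23.AQ.LiC

/-!
# Polylogarithms at several multiples of the argument
-/

set_option autoImplicit false

open Set Polynomial Filter Topology

namespace Pool.Agent.Q232

open Pool.Agent.TH818.AP Pool.Agent.Q23.AQ

/-- the monomials in `Li_k(c t)` -/
noncomputable def mli {w d : ℕ} (c : ℝ) (e : Fin w → Fin (d + 1)) (t : ℝ) : ℝ :=
  ∏ k : Fin w, Li ((k : ℕ) + 1) (c * t) ^ (e k : ℕ)

theorem li_an_mul (k : ℕ) {c t : ℝ} (h : c * t ∈ Ioo (-1 : ℝ) 1) : AnalyticAt ℝ (fun t => Li k (c * t)) t :=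
  AnalyticAt.comp (f := fun t : ℝ => c * t) (liAn k (c * t) h) (analyticAt_const.mul analyticAt_id)

theorem mli_an {w d : ℕ} (c : ℝ) (e : Fin w → Fin (d + 1)) {t : ℝ} (h : c * t ∈ Ioo (-1 : ℝ) 1) :
    AnalyticAt ℝ (mli c e) t := by
  unfold mli
  exact Finset.analyticAt_fun_prod _ fun k _ => (li_an_mul _ h).pow _

/-- identity theorem on an open interval -/
theorem ident {f : ℝ → ℝ} {x y a b : ℝ} (hf : ∀ t ∈ Ioo x y, AnalyticAt ℝ f t) (hxa : x < a) (hby : b < y)
    (hab : a < b) (h : ∀ t ∈ Icc a b, f t = 0) : ∀ t ∈ Ioo x y, f t = 0 := by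
  have h2 : f =ᶠ[𝓝 ((a + b) / 2)] 0 := by
    filter_upwards [Icc_mem_nhds (show a < (a + b) / 2 by linarith) (show (a + b) / 2 < b by linarith)] with t ht
    exact h t ht
  intro t ht
  have hf' : AnalyticOnNhd ℝ f (Ioo x y) := hf
  exact hf'.eqOn_zero_of_preconnected_of_eventuallyEq_zero isPreconnected_Ioo
    (show (a + b) / 2 ∈ Ioo x y from ⟨by linarith, by linarith⟩) h2 ht

/-- The polylogarithms `Li_k(c_j t)` for decreasing `c_j > 0` are algebraically independent over the functions which are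
analytic on an interval containing `0` and all the `1 / c_j`. -/
theorem lis {w d : ℕ} : ∀ (r : ℕ) (c : Fin r → ℝ), StrictAnti c → (∀ j, 0 < c j) → ∀ (x y : ℝ), x < 0 →
    (∀ j, 1 < c j * y) → ∀ a b : ℝ, 0 < a → a < b → b < y → (∀ j, c j * b < 1) →
    ∀ P : (Fin r → (Fin w → Fin (d + 1))) → ℝ → ℝ, (∀ e, ∀ t ∈ Ioo x y, AnalyticAt ℝ (P e) t) →
    (∀ t ∈ Icc a b, ∑ e, P e t * ∏ j, mli (c j) (e j) t = 0) → ∀ e, ∀ t ∈ Ioo x y, P e t = 0 := by
  intro r
  induction r with
  | zero =>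
    intro c _ _ x y hx _ a b ha hab hby _ P hP h e
    refine ident (hP e) (hx.trans ha) hby hab fun t ht => ?_
    have h1 := h t ht
    rw [Fintype.sum_eq_single e (fun e' he' => absurd (Subsingleton.elim e' e) he')] at h1
    simpa using h1
  | succ r ih =>
    intro c hc h0 x y hx hy a b ha hab hby hb P hP h
    classical
    set C := c 0 with hC
    have hC0 : 0 < C := h0 0
    have hCy : 1 < C * y := hy 0
    have hy0 : 0 < y := by
      by_contra hneg
      have : C * y ≤ 0 := mul_nonpos_of_nonneg_of_nonpos hC0.le (not_lt.1 hneg)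
      linarith
    -- the other functions
    let G : (Fin w → Fin (d + 1)) → ℝ → ℝ := fun e' t =>
      ∑ er : Fin r → (Fin w → Fin (d + 1)), P (Fin.cons e' er) t * ∏ j : Fin r, mli (c j.succ) (er j) t
    let p : (Fin (w + 1) → Fin (d + 1)) → ℝ → ℝ := fun e'' s =>
      if e'' 0 = 0 then G (fun k => e'' k.succ) (C⁻¹ * s) else 0
    have hmem : ∀ s ∈ Icc (0 : ℝ) 1, C⁻¹ * s ∈ Ioo x y ∧ ∀ j : Fin r, c j.succ * (C⁻¹ * s) ∈ Ioo (-1 : ℝ) 1 := by
      intro s hs
      have h1 : 0 ≤ C⁻¹ * s := mul_nonneg (inv_pos.2 hC0).le hs.1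
      have h2 : C⁻¹ * s ≤ C⁻¹ := mul_le_of_le_one_right (inv_pos.2 hC0).le hs.2
      have h3 : C⁻¹ < y := by
        rw [inv_lt_iff_one_lt_mul₀ hC0, mul_comm]
        exact hCy
      refine ⟨⟨by linarith, by linarith⟩, fun j => ?_⟩
      have h4 : c j.succ < C := hc (Fin.succ_pos j)
      have h5 : 0 < c j.succ := h0 _
      constructor
      · have : 0 ≤ c j.succ * (C⁻¹ * s) := mul_nonneg h5.le h1
        linarith
      · calc c j.succ * (C⁻¹ * s) ≤ c j.succ * C⁻¹ := by gcongr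
          _ < C * C⁻¹ := by
            have := inv_pos.2 hC0
            gcongr
          _ = 1 := mul_inv_cancel₀ hC0.ne'
    have hG : ∀ e' t, t ∈ Ioo x y → (∀ j : Fin r, c j.succ * t ∈ Ioo (-1 : ℝ) 1) → AnalyticAt ℝ (G e') t := by
      intro e' t ht hj
      refine Finset.analyticAt_fun_sum _ fun er _ => (hP _ t ht).mul ?_
      exact Finset.analyticAt_fun_prod _ fun j _ => mli_an _ _ (hj j)
    have hp : ∀ e'', ∀ s ∈ Icc (0 : ℝ) 1, AnalyticAt ℝ (p e'') s := by
      intro e'' s hs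
      by_cases h1 : e'' 0 = 0
      · simp only [p, if_pos h1]
        obtain ⟨h2, h3⟩ := hmem s hs
        exact AnalyticAt.comp (f := fun s : ℝ => C⁻¹ * s) (hG _ _ h2 h3) (analyticAt_const.mul analyticAt_id)
      · simp only [p, if_neg h1]
        exact analyticAt_const
    have hrel : ∀ s ∈ Icc (C * a) (C * b), LiC.FF p s (fun k => pl k s) = 0 := by
      intro s hs
      have hs1 : C⁻¹ * s ∈ Icc a b := by
        constructor
        · rw [le_inv_mul_iff₀ hC0]; exact hs.1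
        · rw [inv_mul_le_iff₀ hC0]; exact hs.2
      have h1 := h _ hs1
      rw [← Equiv.sum_comp (Fin.consEquiv fun _ : Fin (r + 1) => (Fin w → Fin (d + 1))), Fintype.sum_prod_type] at h1
      unfold LiC.FF
      rw [← Equiv.sum_comp (Fin.consEquiv fun _ : Fin (w + 1) => Fin (d + 1)), Fintype.sum_prod_type,
        Fintype.sum_eq_single (0 : Fin (d + 1))]
      · rw [← h1]
        refine Finset.sum_congr rfl fun e' _ => ?_
        have h2 : p ((Fin.consEquiv fun _ : Fin (w + 1) => Fin (d + 1)) (0, e')) s = G e' (C⁻¹ * s) := by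
          simp only [p, Fin.consEquiv, Equiv.coe_fn_mk, Fin.cons_zero, if_true, Fin.cons_succ]
        rw [h2]
        have h3 : ∏ k : Fin (w + 1), pl (k : ℕ) s ^
            (((Fin.consEquiv fun _ : Fin (w + 1) => Fin (d + 1)) (0, e') k : Fin (d + 1)) : ℕ) =
            mli C e' (C⁻¹ * s) := by
          rw [Fin.prod_univ_succ]
          simp only [Fin.consEquiv, Equiv.coe_fn_mk, Fin.cons_zero, Fin.cons_succ, Fin.val_zero, pow_zero, one_mul, mli]
          refine Finset.prod_congr rfl fun k _ => ?_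
          have h4 : C * (C⁻¹ * s) = s := by rw [← mul_assoc, mul_inv_cancel₀ hC0.ne', one_mul]
          rw [h4]
          congr 1
        rw [h3]
        simp only [G, Finset.sum_mul]
        refine Finset.sum_congr rfl fun er _ => ?_
        rw [Fin.prod_univ_succ]
        simp only [Fin.consEquiv, Equiv.coe_fn_mk, Fin.cons_zero, Fin.cons_succ]
        rw [← hC]
        ring
      · intro e0 he0
        refine Finset.sum_eq_zero fun e' _ => ?_
        have h2 : p ((Fin.consEquiv fun _ : Fin (w + 1) => Fin (d + 1)) (e0, e')) s = 0 := by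
          simp only [p, Fin.consEquiv, Equiv.coe_fn_mk, Fin.cons_zero, if_neg he0]
        rw [h2, zero_mul]
    have hz := LiC.main p hp (C * a) (C * b) (mul_pos hC0 ha) (by gcongr) (hb 0) hrel
    have hGz : ∀ e', ∀ t ∈ Icc a b, G e' t = 0 := by
      intro e' t ht
      have h1 := hz (Fin.cons 0 e') (C * t) ⟨mul_pos hC0 (ha.trans_le ht.1), by
        have h2 : C * t ≤ C * b := by gcongr; exact ht.2
        exact lt_of_le_of_lt h2 (hb 0)⟩
      simp only [p, Fin.cons_zero, if_true, Fin.cons_succ] at h1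
      have h4 : C⁻¹ * (C * t) = t := by rw [← mul_assoc, inv_mul_cancel₀ hC0.ne', one_mul]
      rw [h4] at h1
      exact h1
    intro e
    obtain ⟨⟨e', er⟩, rfl⟩ := (Fin.consEquiv fun _ : Fin (r + 1) => (Fin w → Fin (d + 1))).surjective e
    exact ih (fun j => c j.succ) (fun i j hij => hc (Fin.succ_lt_succ_iff.2 hij)) (fun j => h0 _) x y hx
      (fun j => hy _) a b ha hab hby (fun j => hb _) (fun er => P (Fin.cons e' er)) (fun er => hP _)
      (hGz e') er

/-- adding `Li_k(c_j t)` to functions analytic on `(x, y)` -/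
theorem comb_lis {κ : Type} [Fintype κ] [DecidableEq κ] {d r w : ℕ} (u : κ → ℝ → ℝ) (c : Fin r → ℝ) (hc : StrictAnti c)
    (h0 : ∀ j, 0 < c j) (x y : ℝ) (hx : x < 0) (hy : ∀ j, 1 < c j * y) (a b : ℝ) (ha : 0 < a) (hab : a < b)
    (hby : b < y) (hb : ∀ j, c j * b < 1) (han : ∀ i, ∀ t ∈ Ioo x y, AnalyticAt ℝ (u i) t)
    (hind : RIndep (fun (e : κ → Fin (d + 1)) (t : ℝ) => ∏ k, u k t ^ (e k : ℕ)) a b) :
    RIndep (fun (e : ((Fin r × Fin w) ⊕ κ) → Fin (d + 1)) (t : ℝ) =>
      ∏ p, Sum.elim (fun (z : Fin r × Fin w) (t : ℝ) => Li ((z.2 : ℕ) + 1) (c z.1 * t)) u p t ^ (e p : ℕ)) a b := by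
  classical
  intro p hp
  let cur : (Fin r → Fin w → Fin (d + 1)) → (Fin r × Fin w → Fin (d + 1)) := fun e z => e z.1 z.2
  let P : (Fin r → Fin w → Fin (d + 1)) → ℝ → ℝ := fun e1 t =>
    ∑ e2 : κ → Fin (d + 1), (p (sumEq (Fin r × Fin w) κ d (cur e1, e2))).eval t * ∏ i, u i t ^ (e2 i : ℕ)
  have hPan : ∀ e1, ∀ t ∈ Ioo x y, AnalyticAt ℝ (P e1) t := by
    intro e1 t ht
    refine Finset.analyticAt_fun_sum _ fun e2 _ => AnalyticAt.mul ?_ ?_
    · exact AnalyticOnNhd.eval_polynomial _ t (mem_univ _)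
    · exact Finset.analyticAt_fun_prod _ fun i _ => (han i t ht).pow _
  have hrel : ∀ t ∈ Icc a b, ∑ e1, P e1 t * ∏ j, mli (c j) (e1 j) t = 0 := by
    intro t ht
    have h1 := hp t ht
    rw [← Equiv.sum_comp (sumEq (Fin r × Fin w) κ d), Fintype.sum_prod_type,
      ← Equiv.sum_comp (Equiv.curry (Fin r) (Fin w) (Fin (d + 1))).symm] at h1
    rw [← h1]
    refine Finset.sum_congr rfl fun e1 _ => ?_
    simp only [P, Finset.sum_mul]
    refine Finset.sum_congr rfl fun e2 _ => ?_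
    have h2 : ∏ p, Sum.elim (fun (z : Fin r × Fin w) (t : ℝ) => Li ((z.2 : ℕ) + 1) (c z.1 * t)) u p t ^
        ((sumEq (Fin r × Fin w) κ d ((Equiv.curry (Fin r) (Fin w) (Fin (d + 1))).symm e1, e2) p : Fin (d + 1)) : ℕ) =
        (∏ j, mli (c j) (e1 j) t) * ∏ i, u i t ^ (e2 i : ℕ) := by
      rw [Fintype.prod_sum_type, Fintype.prod_prod_type]
      rfl
    rw [h2]
    have h3 : (Equiv.curry (Fin r) (Fin w) (Fin (d + 1))).symm e1 = cur e1 := rfl
    rw [h3]
    ring
  have hz := lis r c hc h0 x y hx hy a b ha hab hby hb P hPan hrel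
  funext e
  obtain ⟨⟨e1, e2⟩, rfl⟩ := (sumEq (Fin r × Fin w) κ d).surjective e
  obtain ⟨e1, rfl⟩ := (Equiv.curry (Fin r) (Fin w) (Fin (d + 1))).symm.surjective e1
  have h2 := hind (fun e2 => p (sumEq (Fin r × Fin w) κ d (cur e1, e2))) (by
      intro t ht
      exact hz e1 t ⟨by linarith [ht.1], lt_of_le_of_lt ht.2 hby⟩)
  exact congrFun h2 e2

end Pool.Agent.Q232
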